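import Pool.Agent.U403.Max.Lap

/-! # Project UX, package LOWU: the truncated second moment method with exceptional sets -/

set_option autoImplicit false

open Filter Topology MeasureTheory Finset
open Pool.Agent.U403.Max

namespace Pool.Agent.U429.UX

noncomputable section

set_option linter.unusedSectionVars false

variable {Ω : Type*} [MeasurableSpace Ω] {P : Measure Ω} [IsProbabilityMeasure P] {J r : ℕ}
  {X : ℕ → ℕ → Ω → ℝ} {A : Set Ω} {C : ℝ} {v : ℕ → ℝ} {vhi : ℝ} {c : ℕ → ℕ → ℕ → ℝ}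

lemma int1 (hX : ∀ j b, Measurable (X j b)) (hA : MeasurableSet A) (hCp : 0 ≤ C)
    (hC : ∀ ω ∈ A, ∀ j b, |X j b ω| ≤ C) {α : ℕ → ℝ} {a : ℝ} (hα : ∀ j, 0 ≤ α j ∧ α j ≤ a)
    (b b' : ℕ) :
    IntegrableOn (fun ω => Real.exp (∑ j ∈ range J, α j * (X j b ω + X j b' ω))) A P := by
  refine bdd_int hA ?_ (M := Real.exp (∑ j ∈ range J, a * (2 * C))) ?_
  · exact (Finset.measurable_sum _ fun j _ => ((hX j b).add (hX j b')).const_mul (α j)).exp
  · intro ω hω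
    rw [abs_of_pos (Real.exp_pos _)]
    apply Real.exp_le_exp.2
    refine Finset.sum_le_sum fun j _ => ?_
    have h1 := abs_le.1 (hC ω hω j b)
    have h2 := abs_le.1 (hC ω hω j b')
    have h3 := hα j
    have h4 : X j b ω + X j b' ω ≤ 2 * C := by linarith [h1.2, h2.2]
    calc α j * (X j b ω + X j b' ω) ≤ α j * (2 * C) := mul_le_mul_of_nonneg_left h4 h3.1
      _ ≤ a * (2 * C) := mul_le_mul_of_nonneg_right h3.2 (by positivity)

lemma int2 (hX : ∀ j b, Measurable (X j b)) (hA : MeasurableSet A)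
    (hC : ∀ ω ∈ A, ∀ j b, |X j b ω| ≤ C) {lam : ℝ} (hlam : 0 ≤ lam) (b : ℕ) :
    IntegrableOn (fun ω => Real.exp (lam * Sb J X b ω)) A P := by
  refine bdd_int hA ?_ (M := Real.exp (lam * ∑ j ∈ range J, C)) ?_
  · exact ((Sb_meas hX b).const_mul lam).exp
  · intro ω hω
    rw [abs_of_pos (Real.exp_pos _)]
    apply Real.exp_le_exp.2
    apply mul_le_mul_of_nonneg_left _ hlam
    exact Finset.sum_le_sum fun j _ => (abs_le.1 (hC ω hω j b)).2

/-- **the truncated second moment method with exceptional sets** -/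
theorem secB (hr : 1 ≤ r) (hX : ∀ j b, Measurable (X j b)) (hA : MeasurableSet A) (hCp : 0 ≤ C)
    (hC : ∀ ω ∈ A, ∀ j b, |X j b ω| ≤ C) (hv : ∀ j ∈ range J, v j ≤ vhi)
    (hcd : ∀ j b, c j b b = v j) (hcv : ∀ j b b', c j b b' ≤ v j)
    (R : ℕ → ℝ) (hR : ∀ j, 1 ≤ R j) (rho : ℝ) (hrho : 0 ≤ rho)
    (hfar : ∀ j ∈ range J, ∀ b < r, ∀ b' < r, R j ≤ |(b : ℝ) - b'| → c j b b' ≤ rho)
    (lam w u th mu δ V th1 : ℝ) (hδ : 0 ≤ δ) (hw : 0 ≤ w) (hv0 : 0 ≤ vhi)
    (hV : V = ∑ j ∈ range J, v j) (hlam : 0 ≤ lam) (hth : 0 ≤ th) (hmu : 0 ≤ mu) (hmul : mu ≤ lam)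
    (hth1 : th1 = lam * w + lam ^ 2 / 2 * vhi)
    (Lp : ∀ α : ℕ → ℝ, (∀ j, 0 ≤ α j ∧ α j ≤ lam + th) → ∀ b < r, ∀ b' < r,
      ∫ ω in A, Real.exp (∑ j ∈ range J, α j * (X j b ω + X j b' ω)) ∂P ≤
        (1 + δ) * Real.exp (∑ j ∈ range J, α j ^ 2 * (v j + c j b b')))
    (B : ℕ → Set Ω) (hB : ∀ b, MeasurableSet (B b)) (hu : 0 ≤ u)
    (Lm : ∀ b < r, (1 - δ) * Real.exp (lam ^ 2 / 2 * V) ≤
      ∫ ω in A \ B b, Real.exp (lam * Sb J X b ω) ∂P)
    (m1 : ℝ) (hm1 : m1 = (1 - δ) - (1 + δ) * (J * Real.exp (th ^ 2 / 2 * vhi - th * w)) -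
      (1 + δ) * Real.exp (mu ^ 2 / 2 * V - mu * (lam * V - u))) (hm0 : 0 ≤ m1) :
    m1 ^ 2 ≤ (1 + δ) * Real.exp (J * (lam ^ 2 * rho)) * (1 + ∑ m ∈ range J,
        Real.exp (th1 * (m + 1)) * (3 * R m) / r) *
        P.real {ω | ∃ b < r, ω ∉ B b ∧ u < Sb J X b ω} := by
  classical
  obtain ⟨X', hX'⟩ : ∃ X' : ℕ → ℕ → Ω → ℝ, X' = fun j b ω => if ω ∈ B b then -C else X j b ω :=
    ⟨_, rfl⟩
  have hin : ∀ j b ω, ω ∈ B b → X' j b ω = -C := by
    intro j b ω h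
    rw [hX']
    exact if_pos h
  have hout : ∀ j b ω, ω ∉ B b → X' j b ω = X j b ω := by
    intro j b ω h
    rw [hX']
    exact if_neg h
  have hm : ∀ j b, Measurable (X' j b) := by
    intro j b
    rw [hX']
    exact Measurable.ite (hB b) measurable_const (hX j b)
  have hC' : ∀ ω ∈ A, ∀ j b, |X' j b ω| ≤ C := by
    intro ω hω j b
    by_cases h : ω ∈ B b
    · rw [hin j b ω h, abs_neg, abs_of_nonneg hCp]
    · rw [hout j b ω h]
      exact hC ω hω j b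
  have hle : ∀ ω ∈ A, ∀ j b, X' j b ω ≤ X j b ω := by
    intro ω hω j b
    by_cases h : ω ∈ B b
    · rw [hin j b ω h]
      exact (abs_le.1 (hC ω hω j b)).1
    · rw [hout j b ω h]
  have Lp' : ∀ α : ℕ → ℝ, (∀ j, 0 ≤ α j ∧ α j ≤ lam + th) → ∀ b < r, ∀ b' < r,
      ∫ ω in A, Real.exp (∑ j ∈ range J, α j * (X' j b ω + X' j b' ω)) ∂P ≤
        (1 + δ) * Real.exp (∑ j ∈ range J, α j ^ 2 * (v j + c j b b')) := by
    intro α hα b hb b' hb'
    refine le_trans ?_ (Lp α hα b hb b' hb')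
    refine setIntegral_mono_on (int1 hm hA hCp hC' hα b b') (int1 hX hA hCp hC hα b b') hA ?_
    intro ω hω
    apply Real.exp_le_exp.2
    refine Finset.sum_le_sum fun j _ => ?_
    exact mul_le_mul_of_nonneg_left (add_le_add (hle ω hω j b) (hle ω hω j b')) (hα j).1
  have hSout : ∀ b ω, ω ∉ B b → Sb J X' b ω = Sb J X b ω := by
    intro b ω h
    unfold Sb
    exact Finset.sum_congr rfl fun j _ => hout j b ω h
  have Lm' : ∀ b < r, (1 - δ) * Real.exp (lam ^ 2 / 2 * V) ≤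
      ∫ ω in A, Real.exp (lam * Sb J X' b ω) ∂P := by
    intro b hb
    refine (Lm b hb).trans ?_
    have e1 : ∫ ω in A \ B b, Real.exp (lam * Sb J X b ω) ∂P =
        ∫ ω in A \ B b, Real.exp (lam * Sb J X' b ω) ∂P := by
      refine setIntegral_congr_fun (hA.diff (hB b)) fun ω hω => ?_
      rw [hSout b ω hω.2]
    rw [e1]
    refine setIntegral_mono_set (int2 hm hA hC' hlam b) (ae_of_all _ fun ω => (Real.exp_pos _).le) ?_
    exact LE.le.eventuallyLE Set.sdiff_subset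
  have key := sec hr hm hA hCp hC' hv hcd hcv R hR rho hrho hfar lam w u th mu δ V th1 hδ hw hv0 hV
    hlam hth hmu hmul hth1 Lp' Lm' m1 hm1 hm0
  refine key.trans ?_
  apply mul_le_mul_of_nonneg_left
  · apply measureReal_mono _ (measure_ne_top _ _)
    rintro ω ⟨b, hb, hbu⟩
    by_cases h : ω ∈ B b
    · exfalso
      have e : Sb J X' b ω = -(J * C) := by
        unfold Sb
        rw [Finset.sum_congr rfl fun j _ => hin j b ω h, Finset.sum_const, Finset.card_range,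
          nsmul_eq_mul]
        ring
      rw [e] at hbu
      have : 0 ≤ (J : ℝ) * C := by positivity
      linarith
    · exact ⟨b, hb, h, by rwa [hSout b ω h] at hbu⟩
  · have h1 : 0 ≤ ∑ m ∈ range J, Real.exp (th1 * (m + 1)) * (3 * R m) / r :=
      Finset.sum_nonneg fun m _ => by have := hR m; positivity
    positivity

end

end Pool.Agent.U429.UX
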